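import Pool.Agent.helper14.NS.Q100d.PZ

/-!
Generated: certificates.
-/

namespace Pool.Agent.helper14.NS.Q100d

open Pool.Agent.helper31.IA (Z)
open Pool.Agent.helper31.IX (Op XOps runX Cov CovD cov_split covD_split)
open Pool.Agent.helper31.IC (TD)
open Pool.Agent.helper63.RG (reloc)
open Pool.Agent.helper63.NF hiding TD
open Pool.Agent.helper4.NS
open Pool.Agent.helper14.CF (xE covD_E)
open Pool.Agent.helper14.NR (share)

mutual
theorem Z_c0_t4 : CovD 1 gZ [(9162457088, 1832910848), (1236950581248, 137438953472), (118212263936, 118212263936)] :=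
  covD_E kZ_eq (.n 0 (.n 2 (.n 2 (.n 2 (.l 0) (.l 0)) (.n 2 (.l 0) (.l 0))) (.n 1 (.n 2 (.l 0) (.l 0)) (.n 2 (.l 0) (.l 0)))) (.n 2 (.n 2 (.l 0) (.n 0 (.l 0) (.l 0))) (.n 2 (.l 0) (.l 0))))
    [(9162457088, 1832910848), (1236950581248, 137438953472), (118212263936, 118212263936)] rfl (by decide +kernel)
theorem Z_c0_t5 : CovD 1 gZ [(9162457088, 1832910848), (1236950581248, 137438953472), (354636791808, 118212263936)] :=
  covD_E kZ_eq (.n 2 (.n 2 (.n 2 (.l 0) (.l 0)) (.n 0 (.l 0) (.l 0))) (.n 0 (.n 2 (.l 0) (.l 0)) (.n 2 (.l 0) (.l 0))))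
    [(9162457088, 1832910848), (1236950581248, 137438953472), (354636791808, 118212263936)] rfl (by decide +kernel)
end

mutual
theorem Z_c0_t7 : CovD 1 gZ [(8246001664, 916455424), (1236950581248, 137438953472), (709273583616, 236424527872)] :=
  covD_E kZ_eq (.n 2 (.n 2 (.n 2 (.l 0) (.l 0)) (.n 2 (.l 0) (.l 0))) (.n 2 (.n 2 (.l 0) (.n 0 (.l 0) (.l 0))) (.n 2 (.n 2 (.l 0) (.l 0)) (.n 2 (.l 0) (.l 0)))))
    [(8246001664, 916455424), (1236950581248, 137438953472), (709273583616, 236424527872)] rfl (by decide +kernel)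
theorem Z_c0_t8 : CovD 1 gZ [(10078912512, 916455424), (1236950581248, 137438953472), (709273583616, 236424527872)] :=
  covD_E kZ_eq (.n 2 (.n 2 (.n 2 (.l 0) (.l 0)) (.n 2 (.l 0) (.l 0))) (.n 2 (.n 2 (.l 0) (.l 0)) (.n 1 (.n 2 (.l 0) (.l 0)) (.n 2 (.l 0) (.l 0)))))
    [(10078912512, 916455424), (1236950581248, 137438953472), (709273583616, 236424527872)] rfl (by decide +kernel)
end

mutual
theorem Z_c0_t10 : CovD 1 gZ [(9162457088, 1832910848), (1511828488192, 137438953472), (236424527872, 236424527872)] :=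
  covD_E kZ_eq (.n 2 (.n 2 (.n 0 (.n 2 (.l 0) (.l 0)) (.n 2 (.l 0) (.l 0))) (.n 2 (.n 0 (.l 0) (.l 0)) (.l 0))) (.n 2 (.n 2 (.l 0) (.l 0)) (.n 2 (.l 0) (.l 0))))
    [(9162457088, 1832910848), (1511828488192, 137438953472), (236424527872, 236424527872)] rfl (by decide +kernel)
theorem Z_c0_t11 : CovD 1 gZ [(9162457088, 1832910848), (1511828488192, 137438953472), (709273583616, 236424527872)] :=
  covD_E kZ_eq (.n 2 (.n 2 (.n 2 (.l 0) (.l 0)) (.n 2 (.l 0) (.l 0))) (.n 0 (.n 2 (.n 2 (.l 0) (.l 0)) (.n 2 (.l 0) (.n 0 (.l 0) (.l 0)))) (.n 2 (.n 2 (.l 0) (.l 0)) (.n 2 (.l 0) (.l 0)))))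
    [(9162457088, 1832910848), (1511828488192, 137438953472), (709273583616, 236424527872)] rfl (by decide +kernel)
end

mutual
theorem Z_c0_t13 : CovD 1 gZ [(9162457088, 1832910848), (1924145348608, 274877906944), (236424527872, 236424527872)] :=
  covD_E kZ_eq (.n 2 (.n 2 (.n 2 (.n 0 (.l 0) (.l 0)) (.n 2 (.l 0) (.l 0))) (.n 0 (.n 2 (.l 0) (.l 0)) (.n 2 (.l 0) (.l 0)))) (.n 1 (.n 2 (.n 2 (.l 0) (.l 0)) (.n 2 (.l 0) (.l 0))) (.n 2 (.n 2 (.l 0) (.l 0)) (.n 2 (.l 0) (.l 0)))))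
    [(9162457088, 1832910848), (1924145348608, 274877906944), (236424527872, 236424527872)] rfl (by decide +kernel)
theorem Z_c0_t15 : CovD 1 gZ [(9162457088, 1832910848), (1924145348608, 274877906944), (591061319680, 118212263936)] :=
  covD_E kZ_eq (.n 1 (.n 2 (.n 2 (.l 0) (.l 0)) (.n 2 (.l 0) (.l 0))) (.n 2 (.n 0 (.l 0) (.l 0)) (.n 2 (.l 0) (.l 0))))
    [(9162457088, 1832910848), (1924145348608, 274877906944), (591061319680, 118212263936)] rfl (by decide +kernel)
end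

mutual
theorem Z_c0_t16 : CovD 1 gZ [(9162457088, 1832910848), (1924145348608, 274877906944), (827485847552, 118212263936)] :=
  covD_E kZ_eq (.n 0 (.n 2 (.n 2 (.l 0) (.l 0)) (.n 0 (.n 2 (.l 0) (.l 0)) (.n 2 (.l 0) (.l 0)))) (.n 2 (.n 2 (.l 0) (.l 0)) (.n 2 (.l 0) (.l 0))))
    [(9162457088, 1832910848), (1924145348608, 274877906944), (827485847552, 118212263936)] rfl (by decide +kernel)
theorem T_c0 : CovD 1 gT [(9162457088, 1832910848), (1649267441664, 549755813888)] :=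
  covD_E kT_eq (.n 0 (.n 1 (.n 0 (.n 1 (.n 1 (.n 1 (.n 0 (.n 1 (.l 0) (.l 0)) (.l 0)) (.n 1 (.l 0) (.l 0))) (.n 1 (.l 0) (.l 0))) (.l 0)) (.n 1 (.n 1 (.l 0) (.l 0)) (.l 0))) (.l 0)) (.n 1 (.n 1 (.l 0) (.l 0)) (.l 0)))
    [(9162457088, 1832910848), (1649267441664, 549755813888)] rfl (by decide +kernel)
end

theorem S_c0 : CovD 0 gS [(9162457088, 1832910848), (1649267441664, 549755813888)] :=
  covD_E kS_eq (.n 0 (.l 0) (.l 0))
    [(9162457088, 1832910848), (1649267441664, 549755813888)] rfl (by decide +kernel)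

theorem Z_c0_t3 : CovD 1 gZ [(9162457088, 1832910848), (1236950581248, 137438953472), (236424527872, 236424527872)] :=
  covD_split 2 (by decide +kernel) Z_c0_t4 Z_c0_t5

theorem Z_c0_t6 : CovD 1 gZ [(9162457088, 1832910848), (1236950581248, 137438953472), (709273583616, 236424527872)] :=
  covD_split 0 (by decide +kernel) Z_c0_t7 Z_c0_t8

theorem Z_c0_t2 : CovD 1 gZ [(9162457088, 1832910848), (1236950581248, 137438953472), (472849055744, 472849055744)] :=
  covD_split 2 (by decide +kernel) Z_c0_t3 Z_c0_t6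

theorem Z_c0_t9 : CovD 1 gZ [(9162457088, 1832910848), (1511828488192, 137438953472), (472849055744, 472849055744)] :=
  covD_split 2 (by decide +kernel) Z_c0_t10 Z_c0_t11

theorem Z_c0_t1 : CovD 1 gZ [(9162457088, 1832910848), (1374389534720, 274877906944), (472849055744, 472849055744)] :=
  covD_split 1 (by decide +kernel) Z_c0_t2 Z_c0_t9

theorem Z_c0_t14 : CovD 1 gZ [(9162457088, 1832910848), (1924145348608, 274877906944), (709273583616, 236424527872)] :=
  covD_split 2 (by decide +kernel) Z_c0_t15 Z_c0_t16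

theorem Z_c0_t12 : CovD 1 gZ [(9162457088, 1832910848), (1924145348608, 274877906944), (472849055744, 472849055744)] :=
  covD_split 2 (by decide +kernel) Z_c0_t13 Z_c0_t14

theorem Z_c0 : CovD 1 gZ [(9162457088, 1832910848), (1649267441664, 549755813888), (472849055744, 472849055744)] :=
  covD_split 1 (by decide +kernel) Z_c0_t1 Z_c0_t12

end Pool.Agent.helper14.NS.Q100d
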